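import Pool.Agent.H929.BG.Stm
import Pool.Agent.H729.BW.CLE

/-!
# BG (helper929), part CE: clusters of `t ^ N` points with a bounded error, emptiness
-/

set_option autoImplicit false

namespace Pool.Agent.H591.BG

open Finset MvPolynomial Pool.Agent.TH3.IR Pool.Agent.Y55.Col Pool.Agent.H929.BW
open Pool.Agent.H929.BG
open Pool.Agent.H350R3.MG (primeIdeal primeIdeal_mk)
open scoped LinearAlgebra.Projectivization

lemma forms_eq {r k d : ℕ} (m : Fin k → ℕ) (v : Fin k → Fin (r + 1) → ℂ) (hv : ∀ i, v i ≠ 0) :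
    (homogeneousSubmodule (Fin (r + 1)) ℂ d ⊓ Submodule.restrictScalars ℂ
      (⨅ i, primeIdeal (Projectivization.mk ℂ (v i) (hv i)) ^ m i :
        Ideal (MvPolynomial (Fin (r + 1)) ℂ)) : Submodule ℂ (MvPolynomial (Fin (r + 1)) ℂ)) =
      Pool.Agent.H938R2.forms (r + 1) d m v := by
  ext F
  rw [Submodule.mem_inf, Submodule.restrictScalars_mem, Submodule.mem_iInf,
    Pool.Agent.H938R2.mem_forms, mem_homogeneousSubmodule]
  have key : F.IsHomogeneous d → ∀ i,
      (F ∈ primeIdeal (Projectivization.mk ℂ (v i) (hv i)) ^ m i ↔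
        Pool.Agent.H938R2.VanishesToOrder (m i) (v i) F) := by
    intro hF i
    rw [primeIdeal_mk]
    exact Pool.Agent.TH176.FB.mem_pow_iff_vanishes (hv i) ((mem_homogeneousSubmodule _ _).2 hF)
  constructor
  · rintro ⟨h1, h2⟩
    exact ⟨h1, fun i => (key h1 i).1 (h2 i)⟩
  · rintro ⟨h1, h2⟩
    exact ⟨h1, fun i => (key h1 i).2 (h2 i)⟩

/-- From the general value of the Hilbert function to `Emp`. -/
lemma emp_of_gv {n r m d : ℕ} (h : GV (n + 1) r m d ((n + 1 + d).choose (n + 1))) :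
    Emp (n + 1) (d + 1) (Multiset.replicate r m) := by
  rw [GV_iff] at h
  obtain ⟨U, -, ⟨P, hP⟩, hQ⟩ := h
  have h1 := hQ P hP
  beta_reduce at h1
  set v : Fin r → Fin (n + 1 + 1) → ℂ := fun i => (P i).rep with hv
  have hv0 : ∀ i, v i ≠ 0 := fun i => (P i).rep_nonzero
  have hPv : ∀ i, P i = Projectivization.mk ℂ (v i) (hv0 i) := fun i => (P i).mk_rep.symm
  have h2 := forms_eq (r := n + 1) (d := d) (fun _ => m) v hv0
  simp only [← hPv] at h2
  rw [h2] at h1
  have h3 : Module.finrank ℂ (homogeneousSubmodule (Fin (n + 1 + 1)) ℂ d) =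
      (n + 1 + d).choose (n + 1) := by
    have h4 := H350MG.finrank_Rj (𝕜 := ℂ) (σ := Fin (n + 1 + 1)) d
    rw [Fintype.card_fin, show n + 1 + 1 + d - 1 = n + 1 + d by omega, ← Nat.choose_symm_add] at h4
    exact h4
  rw [h3] at h1
  have h5 : Module.finrank ℂ (Pool.Agent.H938R2.forms (n + 1 + 1) d (fun _ => m) v) = 0 := by
    have h6 : ((Module.finrank ℂ (Pool.Agent.H938R2.forms (n + 1 + 1) d (fun _ => m) v) : ℕ) : ℤ) =
        0 := by linarith
    exact_mod_cast h6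
  have h7 := Pool.Agent.H938R2.forms_semicontinuous (n := n + 2) (d := d)
    (m := fun _ : Fin r => m) v 0 h5.le
  have h8 := emp_of_general (n := n) (N := r) (d := d) (fun _ => m)
    (h7.mono fun p hp => Nat.le_zero.1 hp)
  rw [Multiset.map_const', Finset.card_val, Finset.card_univ, Fintype.card_fin] at h8
  exact h8

theorem t_CE : S_CE := by
  intro n hn
  obtain ⟨-, h2, -⟩ := Pool.Agent.Results.MP_b56c98_ag.ConstantWindow.result (n + 1) (by omega)
  set c : ℕ := Pool.Agent.Results.MP_b56c98_ag.ConstantWindow.const (n + 1) with hc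
  have hn0 : (0 : ℝ) ≤ n := Nat.cast_nonneg n
  have hn1 : (1 : ℝ) ≤ n := by exact_mod_cast hn
  have hc0 : (0 : ℝ) ≤ c := Nat.cast_nonneg c
  set δ : ℝ := c * ((1 + n / 2) * (4 * n ^ 3)) with hδ
  have hδ0 : 0 ≤ δ := by positivity
  refine ⟨1 + n / 2 + δ, by linarith [div_nonneg hn0 (by norm_num : (0 : ℝ) ≤ 2)],
    fun m hm t ht => ?_⟩
  have hm1 : (1 : ℝ) ≤ m := by exact_mod_cast hm
  have ht1 : (1 : ℝ) ≤ t := by exact_mod_cast ht
  have hg0 := gg_nonneg n m
  set g : ℝ := gg n m with hg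
  rcases le_or_gt ((t : ℝ) * g - (1 + n / 2 + δ)) 0 with hx | hx
  · refine ⟨t * m, Pool.Agent.H729.BW.cle_low n t m ht hm, ?_⟩
    exact hx.trans (Nat.cast_nonneg _)
  obtain ⟨d, hd⟩ : ∃ d : ℕ, ⌈(t : ℝ) * g - (1 + n / 2 + δ)⌉₊ = d + 1 :=
    ⟨⌈(t : ℝ) * g - (1 + n / 2 + δ)⌉₊ - 1, by
      have := Nat.ceil_pos.2 hx
      omega⟩
  have hd1 : (t : ℝ) * g - (1 + n / 2 + δ) ≤ ((d + 1 : ℕ) : ℝ) := by
    rw [← hd]
    exact Nat.le_ceil _
  have hd2 : ((d + 1 : ℕ) : ℝ) < (t : ℝ) * g - (1 + n / 2 + δ) + 1 := by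
    rw [← hd]
    exact Nat.ceil_lt_add_one hx.le
  refine ⟨d + 1, ?_, hd1⟩
  push_cast at hd2
  have hd0 : (0 : ℝ) ≤ d := Nat.cast_nonneg d
  have htg : 0 ≤ (t : ℝ) * g := by positivity
  -- the estimate of the critical degree
  have k1 : PP n (d + 1) ≤ ((t : ℝ) * g - δ) ^ (n + 1) :=
    (PP_mid n (by linarith)).trans (pow_le_pow_left₀ (by positivity) (by linarith) _)
  have k2 := pow_sub_ge (n := n) (x := (t : ℝ) * g) (y := (t : ℝ) * g - δ) (by linarith)
    (by linarith)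
  have k3 : ((t : ℝ) * g) ^ (n + 1) = (t : ℝ) ^ (n + 1) * PP n m := by
    rw [mul_pow, hg, gg_pow]
  have k4 : PP n (d + 1) + δ * ((t : ℝ) * g) ^ n ≤ (t : ℝ) ^ (n + 1) * PP n m := by
    rw [← k3]
    have e1 : (t : ℝ) * g - ((t : ℝ) * g - δ) = δ := by ring
    rw [e1] at k2
    linarith
  have hf : (0 : ℝ) < (n + 1).factorial := by exact_mod_cast Nat.factorial_pos _
  by_cases hcase : 4 * n ^ 3 * t ≤ m
  · refine Pool.Agent.H729.BW.cle_emp n t m d ht ?_ ?_
    · refine Or.inr (Or.inr (Or.inl ?_))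
      rw [Nat.add_sub_cancel]
      exact hcase
    · have k5 : PP n (d + 1) ≤ (t : ℝ) ^ (n + 1) * PP n m := by
        have : 0 ≤ δ * ((t : ℝ) * g) ^ n := by positivity
        linarith
      rw [← PP_nat, ← PP_nat'] at k5
      push_cast at k5
      have k6 : ((n + 1).factorial : ℝ) * (((n + 1 + d).choose (n + 1) : ℕ) : ℝ) ≤
          ((n + 1).factorial : ℝ) * ((t : ℝ) ^ (n + 1) * (((n + 1 + m - 1).choose (n + 1) : ℕ) : ℝ)) := by
        linarith
      have k7 := le_of_mul_le_mul_left k6 hf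
      have k8 : (n + 1 + d).choose (n + 1) ≤ t ^ (n + 1) * (n + 1 + m - 1).choose (n + 1) := by
        exact_mod_cast k7
      have e1 : d + (n + 1) = n + 1 + d := by omega
      have e2 : m + n = n + 1 + m - 1 := by omega
      rw [e1, e2]
      exact k8
  · have hcase' : (m : ℝ) ≤ 4 * n ^ 3 * t := by
      have : m ≤ 4 * n ^ 3 * t := by omega
      exact_mod_cast this
    refine emp_of_gv ((h2 m d hm).2.2 (t ^ (n + 1)) (Or.inr ?_))
    show (c : ℤ) * (((n + 1 + m - 1).choose (n + 1) : ℕ) - m) ≤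
      ((t ^ (n + 1) : ℕ) : ℤ) * ((n + 1 + m - 1).choose (n + 1) : ℕ) -
        ((n + 1 + d).choose (n + 1) : ℕ)
    have k5 : (c : ℝ) * PP n m ≤ δ * ((t : ℝ) * g) ^ n := by
      rw [← gg_pow, ← hg]
      have e1 : g ≤ (1 + n / 2) * (4 * n ^ 3) * t := by
        have e2 : g ≤ m + n / 2 := gg_le n m
        have e3 : (m : ℝ) + n / 2 ≤ (1 + n / 2) * m := by nlinarith
        have e4 : (1 + (n : ℝ) / 2) * m ≤ (1 + n / 2) * (4 * n ^ 3 * t) :=
          mul_le_mul_of_nonneg_left hcase' (by positivity)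
        linarith
      have e5 : (t : ℝ) ≤ t ^ n := by
        calc (t : ℝ) = t ^ 1 := (pow_one _).symm
          _ ≤ t ^ n := pow_le_pow_right₀ ht1 hn
      calc (c : ℝ) * g ^ (n + 1) = c * g ^ n * g := by ring
        _ ≤ c * g ^ n * ((1 + n / 2) * (4 * n ^ 3) * t) :=
            mul_le_mul_of_nonneg_left e1 (by positivity)
        _ = δ * g ^ n * t := by
            rw [hδ]
            ring
        _ ≤ δ * g ^ n * t ^ n := mul_le_mul_of_nonneg_left e5 (by positivity)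
        _ = δ * ((t : ℝ) * g) ^ n := by
            rw [mul_pow]
            ring
    have k6 : (c : ℝ) * PP n m ≤ (t : ℝ) ^ (n + 1) * PP n m - PP n (d + 1) := by linarith
    rw [← PP_nat, ← PP_nat'] at k6
    push_cast at k6
    have k7 : (c : ℝ) * ((n + 1 + m - 1).choose (n + 1) : ℕ) ≤
        (t : ℝ) ^ (n + 1) * ((n + 1 + m - 1).choose (n + 1) : ℕ) -
          ((n + 1 + d).choose (n + 1) : ℕ) := by
      refine le_of_mul_le_mul_left ?_ hf
      linarith
    have k8 : (c : ℤ) * ((n + 1 + m - 1).choose (n + 1) : ℕ) ≤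
        ((t ^ (n + 1) : ℕ) : ℤ) * ((n + 1 + m - 1).choose (n + 1) : ℕ) -
          ((n + 1 + d).choose (n + 1) : ℕ) := by
      have h5 : (((c : ℤ) * ((n + 1 + m - 1).choose (n + 1) : ℕ) : ℤ) : ℝ) ≤
          ((((t ^ (n + 1) : ℕ) : ℤ) * ((n + 1 + m - 1).choose (n + 1) : ℕ) -
            ((n + 1 + d).choose (n + 1) : ℕ) : ℤ) : ℝ) := by
        push_cast
        exact k7
      exact_mod_cast h5
    have h6 : (0 : ℤ) ≤ c * m := by positivity
    linarith

end Pool.Agent.H591.BG
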